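import Pool.Agent.K3h16.MI.Stm

/-!
Project MI (helper16), brick CONF3 (helper92): invariance of the form `d_x d_y log |x - y|`.
-/

set_option autoImplicit false

open MeasureTheory Set Filter Topology
open scoped ContDiff

namespace Pool.Agent.K3h92.MI

open Pool.Agent.K3h16.MI

theorem deriv_x {n : ℕ} {T : E n → E n} {ρ : E n → ℝ} {U : Set (E n)} (h : Conf T ρ U)
    {x : E n} (hx : x ∈ U) {y : E n} (hy : y ∈ U) (v : E n) :
    2 * inner ℝ (T x - T y) (fderiv ℝ T x v) =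
      fderiv ℝ ρ x v * ρ y * ‖x - y‖ ^ 2 + ρ x * ρ y * (2 * inner ℝ (x - y) v) := by
  have hU := h.isOpen.mem_nhds hx
  have hT : HasFDerivAt T (fderiv ℝ T x) x :=
    ((h.smoothT.contDiffAt hU).differentiableAt (by simp)).hasFDerivAt
  have hρ : HasFDerivAt ρ (fderiv ℝ ρ x) x :=
    ((h.smoothρ.contDiffAt hU).differentiableAt (by simp)).hasFDerivAt
  have D1 := (hT.sub_const (T y)).norm_sq
  have D2 := (hρ.mul_const (ρ y)).mul ((hasFDerivAt_id x).sub_const y).norm_sq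
  have heq : (fun z => ‖T z - T y‖ ^ 2) =ᶠ[𝓝 x]
      (fun z => ρ z * ρ y) * fun z => ‖id z - y‖ ^ 2 := by
    filter_upwards [hU] with z hz
    exact h.dist z hz y hy
  have h3 := congrArg (fun L => L v) ((D1.congr_of_eventuallyEq heq.symm).unique D2)
  simp only [add_apply, smul_apply, ContinuousLinearMap.comp_apply, innerSL_apply_apply,
    ContinuousLinearMap.coe_id', id_eq, smul_eq_mul, nsmul_eq_mul, Nat.cast_ofNat] at h3
  rw [h3]
  ring

/-- **CONF3** -/
theorem t_CONF3 : S_CONF3 := by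
  intro n T ρ U h x hx y hy hxy v w
  have hUy := h.isOpen.mem_nhds hy
  have hTy : HasFDerivAt T (fderiv ℝ T y) y :=
    ((h.smoothT.contDiffAt hUy).differentiableAt (by simp)).hasFDerivAt
  have hρx := h.pos x hx
  have hρy := h.pos y hy
  have hr : 0 < ‖x - y‖ ^ 2 := by
    have : x - y ≠ 0 := sub_ne_zero.2 hxy
    positivity
  have hRe := h.dist x hx y hy
  have hR : 0 < ‖T x - T y‖ ^ 2 := by
    rw [hRe]
    positivity
  set c := fderiv ℝ T x v with hc
  obtain ⟨a, ha⟩ : ∃ a : ℝ, a = fderiv ℝ ρ x v / ρ x := ⟨_, rfl⟩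
  -- the identity, for all `z` in `U`
  have key : ∀ z ∈ U, 2 * (innerSL ℝ c (T x - T z) * ‖x - z‖ ^ 2) =
      a * (‖T x - T z‖ ^ 2 * ‖x - z‖ ^ 2) + 2 * (‖T x - T z‖ ^ 2 * innerSL ℝ v (x - z)) := by
    intro z hz
    have h1 := deriv_x h hx hz v
    have h2 := h.dist x hx z hz
    rw [innerSL_apply_apply, innerSL_apply_apply, real_inner_comm, real_inner_comm (x - z) v]
    have h3 : 2 * inner ℝ (T x - T z) c = a * ‖T x - T z‖ ^ 2 +
        2 * (ρ x * ρ z) * inner ℝ (x - z) v := by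
      rw [h1, h2, ha]
      field_simp
    calc 2 * (inner ℝ (T x - T z) c * ‖x - z‖ ^ 2) =
        (2 * inner ℝ (T x - T z) c) * ‖x - z‖ ^ 2 := by ring
      _ = (a * ‖T x - T z‖ ^ 2 + 2 * (ρ x * ρ z) * inner ℝ (x - z) v) * ‖x - z‖ ^ 2 := by rw [h3]
      _ = a * (‖T x - T z‖ ^ 2 * ‖x - z‖ ^ 2) +
          2 * ((ρ x * ρ z * ‖x - z‖ ^ 2) * inner ℝ (x - z) v) := by ring
      _ = _ := by rw [← h2]
  have dP : HasFDerivAt (fun z => innerSL ℝ c (T x - T z)) ((innerSL ℝ c).comp (-fderiv ℝ T y)) y :=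
    (innerSL ℝ c).hasFDerivAt.comp y (hTy.const_sub (T x))
  have dR := (hTy.const_sub (T x)).norm_sq
  have dr := ((hasFDerivAt_id (𝕜 := ℝ) y).const_sub x).norm_sq
  have dq : HasFDerivAt (fun z => innerSL ℝ v (x - id z))
      ((innerSL ℝ v).comp (-ContinuousLinearMap.id ℝ (E n))) y :=
    (innerSL ℝ v).hasFDerivAt.comp y ((hasFDerivAt_id (𝕜 := ℝ) y).const_sub x)
  have D1 := (dP.mul dr).const_mul 2
  have D2 := ((dR.mul dr).const_mul a).add ((dR.mul dq).const_mul 2)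
  have heq := Filter.eventuallyEq_of_mem hUy key
  have h3 := congrArg (fun L => L w) ((D1.congr_of_eventuallyEq heq.symm).unique D2)
  simp only [add_apply, smul_apply, ContinuousLinearMap.comp_apply, innerSL_apply_apply,
    neg_apply, ContinuousLinearMap.coe_id', id_eq, smul_eq_mul, nsmul_eq_mul, Nat.cast_ofNat,
    inner_neg_right] at h3
  have h4 := key y hy
  simp only [innerSL_apply_apply] at h4
  have hk : ρ x * ρ y = ‖T x - T y‖ ^ 2 / ‖x - y‖ ^ 2 := by
    rw [hRe, mul_div_assoc, div_self hr.ne', mul_one]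
  rw [hk]
  clear key dP dR dr dq D1 D2 heq hk hRe
  generalize ‖T x - T y‖ ^ 2 = R at *
  generalize ‖x - y‖ ^ 2 = r at *
  generalize inner ℝ c (T x - T y) = P at *
  generalize inner ℝ v (x - y) = q at *
  generalize inner ℝ c ((fderiv ℝ T y) w) = Pw at *
  generalize inner ℝ (T x - T y) ((fderiv ℝ T y) w) = Rw at *
  generalize inner ℝ (x - y) w = rw' at *
  generalize inner ℝ v w = qw at *
  have h5 : Pw * R * r ^ 2 - 2 * P * Rw * r ^ 2 = R ^ 2 * (qw * r - 2 * q * rw') := by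
    linear_combination (-1 / 2 * (R * r)) * h3 - (R * rw' + r * Rw) * h4
  have hR' := hR.ne'
  have hr' := hr.ne'
  have h6 : (Pw + -2 * (P * Rw / R)) * (R * r ^ 2) =
      (R / r * (qw + -2 * (q * rw' / r))) * (R * r ^ 2) := by
    have e1 : (Pw + -2 * (P * Rw / R)) * (R * r ^ 2) =
        Pw * R * r ^ 2 - 2 * P * Rw * r ^ 2 := by
      field_simp
      ring
    have e2 : (R / r * (qw + -2 * (q * rw' / r))) * (R * r ^ 2) =
        R ^ 2 * (qw * r - 2 * q * rw') := by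
      field_simp
      ring
    rw [e1, e2, h5]
  exact mul_right_cancel₀ (mul_ne_zero hR' (pow_ne_zero 2 hr')) h6

end Pool.Agent.K3h92.MI
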